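import Mathlib

set_option autoImplicit false

/-! The nonempty closed subsets of a sphere are exactly the images of the pointwise limits of the
iterates of a single homeomorphism, and the iterates of the inverse can be made to converge too. -/

namespace Pool.Agent.Results.MP_1a07a1_gt.Iterates

open Set Metric Filter Topology

/-- Iterates of a map which moves points in the direction `w` only, by a continuous nonnegative
amount vanishing exactly on `C`. -/
theorem iterates {V : Type} [NormedAddCommGroup V] [NormedSpace ℝ V] [ProperSpace V] {C : Set V}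
    {w : V} (hw : ‖w‖ = 1) (S : V ≃ₜ V) (σ : V → ℝ) (h0 : (∀ x, 0 ≤ σ x) ∨ ∀ x, σ x ≤ 0)
    (hS : ∀ x, S x = x + σ x • w) (hC : ∀ x, S x = x → x ∈ C) (x : V) :
    Tendsto (fun k => S^[k] x) atTop (cocompact V) ∨
      ∃ y ∈ C, Tendsto (fun k => S^[k] x) atTop (𝓝 y) := by
  let t : ℕ → ℝ := fun k => ∑ j ∈ Finset.range k, σ (S^[j] x)
  have h5 : ∀ k, S^[k] x = x + t k • w := fun k => by
    induction k with
    | zero => simp [t]
    | succ k ih =>
      rw [Function.iterate_succ_apply', hS]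
      simp only [t, Finset.sum_range_succ, add_smul, ← add_assoc]
      rw [← ih]
  have fin : ∀ l : ℝ, Tendsto t atTop (𝓝 l) →
      ∃ y ∈ C, Tendsto (fun k => S^[k] x) atTop (𝓝 y) := fun l h => by
    have h7 : Tendsto (fun k => S^[k] x) atTop (𝓝 (x + l • w)) := by
      simp only [h5]
      exact (h.smul_const w).const_add x
    have h8 := isFixedPt_of_tendsto_iterate h7 S.continuous.continuousAt
    exact ⟨_, hC _ h8, h7⟩
  have inf : Tendsto (fun k => |t k|) atTop atTop →
      Tendsto (fun k => S^[k] x) atTop (cocompact V) := fun h => by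
    rw [← cobounded_eq_cocompact, ← tendsto_norm_atTop_iff_cobounded]
    refine tendsto_atTop_mono (fun k => ?_) (tendsto_atTop_add_const_right _ (-‖x‖) h)
    have := norm_sub_le (x + t k • w) x
    rw [add_sub_cancel_left, norm_smul, hw, mul_one, ← h5, Real.norm_eq_abs] at this
    linarith
  rcases h0 with h0 | h0
  · have h6 : Monotone t := monotone_nat_of_le_succ fun k => by
      simp only [t, Finset.sum_range_succ]
      have := h0 (S^[k] x)
      linarith
    rcases tendsto_atTop_of_monotone h6 with h | ⟨l, h⟩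
    · exact Or.inl (inf (tendsto_abs_atTop_atTop.comp h))
    · exact Or.inr (fin l h)
  · have h6 : Antitone t := antitone_nat_of_succ_le fun k => by
      simp only [t, Finset.sum_range_succ]
      have := h0 (S^[k] x)
      linarith
    rcases tendsto_atTop_of_antitone h6 with h | ⟨l, h⟩
    · exact Or.inl (inf (tendsto_abs_atBot_atTop.comp h))
    · exact Or.inr (fin l h)

theorem push {V : Type} [NormedAddCommGroup V] [NormedSpace ℝ V] [ProperSpace V] [Nontrivial V]
    {C : Set V} (hC : IsClosed C) : ∃ T : V ≃ₜ V, (∀ x, T x = x ↔ x ∈ C) ∧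
      (∀ x, Tendsto (fun k => T^[k] x) atTop (cocompact V) ∨
        ∃ y ∈ C, Tendsto (fun k => T^[k] x) atTop (𝓝 y)) ∧
      ∀ x, Tendsto (fun k => T.symm^[k] x) atTop (cocompact V) ∨
        ∃ y ∈ C, Tendsto (fun k => T.symm^[k] x) atTop (𝓝 y) := by
  obtain ⟨ρ, h1, h2, h3⟩ : ∃ ρ : V → ℝ, (∀ x y, |ρ x - ρ y| ≤ ‖x - y‖) ∧ (∀ x, 0 ≤ ρ x) ∧
      ∀ x, ρ x = 0 ↔ x ∈ C := by
    rcases C.eq_empty_or_nonempty with rfl | h
    · exact ⟨fun _ => 1, by simp, by simp, by simp⟩
    · refine ⟨fun x => infDist x C, fun x y => ?_, fun _ => infDist_nonneg,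
        fun x => (hC.mem_iff_infDist_zero h).symm⟩
      simpa [Real.dist_eq, dist_eq_norm] using (lipschitz_infDist_pt C).dist_le_mul x y
  obtain ⟨w, hw⟩ := exists_norm_eq V zero_le_one
  have h4 : ApproximatesLinearOn (fun x => x + (ρ x / 2) • w)
      ((ContinuousLinearEquiv.refl ℝ V : V ≃L[ℝ] V) : V →L[ℝ] V) univ (1 / 2) := fun x _ y _ => by
    have : x + (ρ x / 2) • w - (y + (ρ y / 2) • w) - (x - y) = ((ρ x - ρ y) / 2) • w := by module
    change ‖_ - (x - y)‖ ≤ _
    rw [this, norm_smul, hw, Real.norm_eq_abs, abs_div, abs_two]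
    have := h1 x y
    push_cast
    linarith
  obtain ⟨T, hT⟩ : ∃ T : V ≃ₜ V, ∀ x, T x = x + (ρ x / 2) • w := ⟨h4.toHomeomorph _ (Or.inr (by
    simp [ContinuousLinearMap.nnnorm_id]; norm_num)), fun _ => rfl⟩
  have hw0 : w ≠ 0 := by rintro rfl; simp at hw
  have hfix : ∀ x, T x = x ↔ x ∈ C := fun x => by
    rw [hT, add_eq_left, smul_eq_zero, ← h3]
    constructor
    · rintro (h | h)
      · linarith
      · exact absurd h hw0
    · intro h
      exact Or.inl (by linarith)
  refine ⟨T, hfix, iterates hw T _ (Or.inl fun x => by have := h2 x; linarith) hT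
    fun x h => (hfix x).1 h, ?_⟩
  refine iterates hw T.symm (fun x => -(ρ (T.symm x) / 2)) (Or.inr fun x => ?_) (fun x => ?_)
    fun x h => (hfix x).1 ?_
  · have := h2 (T.symm x)
    linarith
  · have h := hT (T.symm x)
    rw [T.apply_symm_apply] at h
    rw [neg_smul]
    exact eq_add_neg_of_add_eq h.symm
  · rw [← h, T.apply_symm_apply, h]

/-- The sphere `S^{n-1}` in `ℝ^n`. -/
abbrev Sph (n : ℕ) : Type := sphere (0 : EuclideanSpace ℝ (Fin n)) (1 : ℝ)

/-- The iterates of `T` converge pointwise onto `C`: every orbit `T^k p` converges to a point of `C`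
and all points of `C` are such limits. -/
def ConvergeOnto {X : Type} [TopologicalSpace X] (T : X ≃ₜ X) (C : Set X) : Prop :=
  (∀ p, ∃ q ∈ C, Tendsto (fun k : ℕ => T^[k] p) atTop (𝓝 q)) ∧
    ∀ q ∈ C, ∃ p, Tendsto (fun k : ℕ => T^[k] p) atTop (𝓝 q)

/-- If the iterates of a homeomorphism of a Hausdorff space converge pointwise onto `C` then `C` is
the set of fixed points. -/
theorem eq_fixed {X : Type} [TopologicalSpace X] [T2Space X] {T : X ≃ₜ X} {C : Set X}
    (h : ConvergeOnto T C) : C = {x | T x = x} := by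
  ext x
  constructor
  · intro hx
    obtain ⟨p, hp⟩ := h.2 x hx
    exact isFixedPt_of_tendsto_iterate hp T.continuous.continuousAt
  · intro hx
    obtain ⟨q, hq, hq'⟩ := h.1 x
    have h1 : ∀ k : ℕ, T^[k] x = x := fun k => Function.iterate_fixed hx k
    simp only [h1] at hq'
    rwa [tendsto_nhds_unique tendsto_const_nhds hq']

theorem exists_iterates {n : ℕ} (hn : 2 ≤ n) {C : Set (Sph n)} (hC : IsClosed C)
    (hne : C.Nonempty) : ∃ T : Sph n ≃ₜ Sph n, (∀ x, T x = x ↔ x ∈ C) ∧
      ConvergeOnto T C ∧ ConvergeOnto T.symm C := by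
  obtain ⟨⟨v, hv⟩, hc⟩ := hne
  have hv' : ‖v‖ = 1 := by simpa using hv
  have : Nontrivial (ℝ ∙ v)ᗮ := by
    have : Fact (Module.finrank ℝ (EuclideanSpace ℝ (Fin n)) = n - 1 + 1) := ⟨by simp; omega⟩
    refine Module.nontrivial_of_finrank_pos (R := ℝ) ?_
    rw [Submodule.finrank_orthogonal_span_singleton (n := n - 1) fun h => by simp [h] at hv']
    omega
  let e := onePointHyperplaneHomeoUnitSphere hv'
  have he : e OnePoint.infty ∈ C := hc
  obtain ⟨T, h1, h2, h2'⟩ := push (hC.preimage (e.continuous.comp OnePoint.continuous_coe))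
  -- transfer to the sphere
  let Φ : ((ℝ ∙ v)ᗮ ≃ₜ (ℝ ∙ v)ᗮ) → (Sph n ≃ₜ Sph n) := fun T =>
    e.symm.trans (T.onePointCongr.trans e)
  have key : ∀ T : (ℝ ∙ v)ᗮ ≃ₜ (ℝ ∙ v)ᗮ, (∀ x : (ℝ ∙ v)ᗮ,
      Tendsto (fun k => T^[k] x) atTop (cocompact _) ∨
        ∃ y ∈ (fun x : (ℝ ∙ v)ᗮ => e x) ⁻¹' C, Tendsto (fun k => T^[k] x) atTop (𝓝 y)) →
      ∀ p, ∃ q ∈ C, Tendsto (fun k : ℕ => (Φ T)^[k] p) atTop (𝓝 q) := by
    intro T h2 p
    have h3 : ∀ k : ℕ, (Φ T)^[k] (e OnePoint.infty) = e OnePoint.infty := fun k =>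
      Function.iterate_fixed (by
        show e (T.onePointCongr (e.symm (e OnePoint.infty))) = _
        rw [e.symm_apply_apply]
        rfl) k
    have h4 : ∀ (k : ℕ) (x : (ℝ ∙ v)ᗮ), (Φ T)^[k] (e x) = e (T^[k] x : (ℝ ∙ v)ᗮ) := fun k x => by
      induction k with
      | zero => rfl
      | succ k ih =>
        rw [Function.iterate_succ_apply', ih]
        show e (T.onePointCongr (e.symm _)) = _
        rw [e.symm_apply_apply, Function.iterate_succ_apply']
        rfl
    obtain ⟨p, rfl⟩ := e.surjective p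
    induction p using OnePoint.rec with
    | infty => exact ⟨_, he, by simp only [h3]; exact tendsto_const_nhds⟩
    | coe x =>
      simp only [h4]
      rcases h2 x with h | ⟨y, h5, h⟩
      · exact ⟨_, he, (e.continuous.tendsto _).comp (OnePoint.tendsto_coe_infty.comp
          (h.mono_right coclosedCompact_eq_cocompact.ge))⟩
      · exact ⟨_, h5, ((e.continuous.comp OnePoint.continuous_coe).tendsto _).comp h⟩
  have hsymm : (Φ T).symm = Φ T.symm := by
    ext1 x
    rfl
  have hfix : ∀ x, Φ T x = x ↔ x ∈ C := by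
    intro x
    obtain ⟨p, rfl⟩ := e.surjective x
    have h5 : Φ T (e p) = e (T.onePointCongr p) := by
      show e (T.onePointCongr (e.symm (e p))) = _
      rw [e.symm_apply_apply]
    rw [h5, e.injective.eq_iff]
    induction p using OnePoint.rec with
    | infty => exact ⟨fun _ => he, fun _ => rfl⟩
    | coe x =>
      have h6 : T.onePointCongr (x : OnePoint (ℝ ∙ v)ᗮ) = ((T x : (ℝ ∙ v)ᗮ) : OnePoint (ℝ ∙ v)ᗮ) := rfl
      rw [h6, OnePoint.coe_eq_coe]
      exact h1 x
  have hfix' : ∀ x, (Φ T).symm x = x ↔ x ∈ C := fun x => by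
    rw [← hfix x, (Φ T).symm_apply_eq, eq_comm]
  refine ⟨Φ T, hfix, ⟨key T h2, fun q hq => ⟨q, ?_⟩⟩, ⟨?_, fun q hq => ⟨q, ?_⟩⟩⟩
  · have : ∀ k : ℕ, (Φ T)^[k] q = q := fun k => Function.iterate_fixed ((hfix q).2 hq) k
    simp only [this]
    exact tendsto_const_nhds
  · rw [hsymm]
    exact key T.symm h2'
  · have : ∀ k : ℕ, (Φ T).symm^[k] q = q := fun k => Function.iterate_fixed ((hfix' q).2 hq) k
    simp only [this]
    exact tendsto_const_nhds

/-- **Main result.**  For `n ≥ 2` and `C ⊆ S^{n-1}` the following are equivalent: `C` is nonempty and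
closed; the iterates of some homeomorphism `T` of `S^{n-1}` converge pointwise onto `C`; there is a
homeomorphism `T` of `S^{n-1}` with fixed point set `C` such that both the iterates of `T` and the
iterates of its inverse converge pointwise onto `C`. -/
theorem result (n : ℕ) (hn : 2 ≤ n) (C : Set (Sph n)) :
    [IsClosed C ∧ C.Nonempty,
      ∃ T : Sph n ≃ₜ Sph n, ConvergeOnto T C,
      ∃ T : Sph n ≃ₜ Sph n, (∀ x, T x = x ↔ x ∈ C) ∧ ConvergeOnto T C ∧
        ConvergeOnto T.symm C].TFAE := by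
  tfae_have 1 → 3 := fun h => exists_iterates hn h.1 h.2
  tfae_have 3 → 2 := fun ⟨T, _, h, _⟩ => ⟨T, h⟩
  tfae_have 2 → 1 := by
    rintro ⟨T, h⟩
    have : Nonempty (Sph n) := by
      have : Nontrivial (EuclideanSpace ℝ (Fin n)) := by
        refine Module.nontrivial_of_finrank_pos (R := ℝ) ?_
        simp
        omega
      exact (NormedSpace.sphere_nonempty.2 zero_le_one).to_subtype
    refine ⟨?_, ?_⟩
    · rw [eq_fixed h]
      exact isClosed_eq T.continuous continuous_id
    · obtain ⟨p⟩ := this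
      obtain ⟨q, hq, -⟩ := h.1 p
      exact ⟨q, hq⟩
  tfae_finish

end Pool.Agent.Results.MP_1a07a1_gt.Iterates
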